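import Mathlib
import Pool.Agent.Q156.Kom.Tails

/-!
# The Komlós problem: random signings with fast decreasing tails, without dependence on the dimension

For vectors `v_1, …, v_n` in the Euclidean unit ball of `ℝ^d` with entries of absolute value at most
`δ` (`δ = 1` is allowed) let `K (L) = min (L^{1/4}) (1 + δ (1 + log (1/δ))^{3/2} L^{1/2})`.

(1) There is a probability distribution on the signings such that for every coordinate `i` and every
`u ≥ 0` the `i`-th coordinate of the signed sum is larger than `C K (1 + u + log max (1, ∑_j v_j(i)²))`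
with probability at most `exp (-u)`. The constant `C` is absolute; `n` and `d` do not occur.

(2) So if `b_1, …, b_d ≥ 1` satisfy `∑_i max (1, ∑_j v_j(i)²) exp (1 - b_i) < 1`, then there is a
signing for which the `i`-th coordinate is at most `C K (b_i)` for all `i`.

For `δ = 1` one has `K (L) ≤ L^{1/4}`.
-/

set_option autoImplicit false

namespace Pool.Agent.Results.MP_c81d26_co.ExponentialTails

open Finset

/-- `min (L^{1/4}) (1 + δ (1 + log (1/δ))^{3/2} L^{1/2})` -/
noncomputable def K (δ L : ℝ) : ℝ :=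
  min (L ^ (1 / 4 : ℝ)) (1 + δ * (1 + Real.log (1 / δ)) ^ (3 / 2 : ℝ) * Real.sqrt L)

theorem K_eq {δ L : ℝ} (hL : 0 ≤ L) : Q156.Kom.K (Q156.Kom.kap δ) L = K δ L := by
  unfold Q156.Kom.K Q156.Kom.kap Q156.Kom.qt K
  congr 1
  rw [Real.sqrt_eq_rpow, Real.sqrt_eq_rpow, ← Real.rpow_mul hL]
  norm_num

theorem coord {d n : ℕ} (v : Fin n → EuclideanSpace ℝ (Fin d)) (ε : Fin n → ℝ) (i : Fin d) :
    (∑ j, ε j • v j) i = ∑ j, v j i * ε j := by
  rw [WithLp.ofLp_sum, Finset.sum_apply]
  exact Finset.sum_congr rfl fun j _ => by simp [mul_comm]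

theorem result : ∃ C : ℝ, 0 < C ∧ ∀ (d n : ℕ) (v : Fin n → EuclideanSpace ℝ (Fin d)) (δ : ℝ),
    (∀ j, ‖v j‖ ≤ 1) → 0 < δ → δ ≤ 1 → (∀ j i, |v j i| ≤ δ) →
    (∃ (M : ℕ) (w : Fin M → ℝ) (ε : Fin M → Fin n → ℝ),
      (∀ r, 0 ≤ w r) ∧ ∑ r, w r = 1 ∧ (∀ r j, ε r j = 1 ∨ ε r j = -1) ∧
      ∀ (i : Fin d) (u : ℝ), 0 ≤ u →
        ∑ r ∈ univ.filter (fun r => C * K δ (1 + u + Real.log (max 1 (∑ j, v j i ^ 2))) <
          |(∑ j, ε r j • v j) i|), w r ≤ Real.exp (-u)) ∧
    ∀ b : Fin d → ℝ, (∀ i, 1 ≤ b i) →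
      ∑ i, max 1 (∑ j, v j i ^ 2) * Real.exp (1 - b i) < 1 →
      ∃ ε : Fin n → ℝ, (∀ j, ε j = 1 ∨ ε j = -1) ∧
        ∀ i, |(∑ j, ε j • v j) i| ≤ C * K δ (b i) := by
  classical
  refine ⟨36000000000, by norm_num, fun d n v δ hv hδ0 hδ1 hvδ => ?_⟩
  have hcol : ∀ j, ∑ i, v j i ^ 2 ≤ 1 := by
    intro j
    have h1 := hv j
    have h2 : ‖v j‖ ^ 2 ≤ 1 := by
      have := norm_nonneg (v j)
      nlinarith
    rw [EuclideanSpace.norm_sq_eq] at h2
    simpa [Real.norm_eq_abs, sq_abs] using h2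
  have hpart := Q156.Kom.part_of_entries (fun i j => v j i) δ hδ0 hδ1 (fun i j => hvδ j i) hcol
  obtain ⟨M, w, x, hw0, hw1, hx, ht⟩ := Q156.Kom.distribution (Q156.Kom.kap_pos hδ0 hδ1) hpart
  have hlog : ∀ i, 0 ≤ Real.log (max 1 (∑ j, v j i ^ 2)) :=
    fun i => Real.log_nonneg (le_max_left _ _)
  have htail : ∀ (i : Fin d) (u : ℝ), 0 ≤ u →
      ∑ r ∈ univ.filter (fun r => 36000000000 *
        K δ (1 + u + Real.log (max 1 (∑ j, v j i ^ 2))) < |(∑ j, x r j • v j) i|), w r ≤
        Real.exp (-u) := by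
    intro i u hu
    have h1 := ht i u hu
    have hL : 0 ≤ 1 + u + Real.log (max 1 (∑ j, v j i ^ 2)) := by
      have := hlog i
      linarith
    rw [K_eq hL] at h1
    have e1 : ∀ r, |(∑ j, x r j • v j) i| = |∑ j, v j i * x r j| := by
      intro r; rw [coord]
    simp only [e1]
    exact h1
  refine ⟨⟨M, w, x, hw0, hw1, hx, htail⟩, fun b hb hsum => ?_⟩
  have hmax : ∀ i, (1 : ℝ) ≤ max 1 (∑ j, v j i ^ 2) := fun i => le_max_left _ _
  set u : Fin d → ℝ := fun i => b i - 1 - Real.log (max 1 (∑ j, v j i ^ 2)) with hu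
  have hexp : ∀ i, Real.exp (-u i) = max 1 (∑ j, v j i ^ 2) * Real.exp (1 - b i) := by
    intro i
    have e1 : -u i = Real.log (max 1 (∑ j, v j i ^ 2)) + (1 - b i) := by
      simp only [hu]; ring
    rw [e1, Real.exp_add, Real.exp_log (by linarith [hmax i])]
  have hu0 : ∀ i, 0 ≤ u i := by
    intro i
    have h1 := Finset.single_le_sum (f := fun i => max 1 (∑ j, v j i ^ 2) * Real.exp (1 - b i))
      (fun i _ => mul_nonneg (by linarith [hmax i]) (Real.exp_pos _).le) (Finset.mem_univ i)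
    simp only at h1
    rw [← hexp i] at h1
    have h2 : Real.exp (-u i) < 1 := lt_of_le_of_lt h1 hsum
    rw [Real.exp_lt_one_iff] at h2
    linarith
  by_contra hcon
  push Not at hcon
  have hbad : ∀ r, ∃ i, 36000000000 * K δ (b i) < |(∑ j, x r j • v j) i| := by
    intro r
    exact hcon (x r) (hx r)
  have h1 : (1 : ℝ) ≤ ∑ i, Real.exp (-u i) := by
    calc (1 : ℝ) = ∑ r, w r := hw1.symm
      _ ≤ ∑ r, ∑ i, (if 36000000000 * K δ (b i) < |(∑ j, x r j • v j) i| then w r else 0) := by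
          refine Finset.sum_le_sum fun r _ => ?_
          obtain ⟨i, hi⟩ := hbad r
          have h2 := Finset.single_le_sum
            (f := fun i => if 36000000000 * K δ (b i) < |(∑ j, x r j • v j) i| then w r else 0)
            (fun i _ => by
              dsimp only
              split_ifs
              · exact hw0 r
              · exact le_rfl) (Finset.mem_univ i)
          simp only [if_pos hi] at h2
          exact h2
      _ = ∑ i, ∑ r ∈ univ.filter (fun r =>
            36000000000 * K δ (b i) < |(∑ j, x r j • v j) i|), w r := by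
          rw [Finset.sum_comm]
          refine Finset.sum_congr rfl fun i _ => ?_
          rw [Finset.sum_filter]
      _ ≤ ∑ i, Real.exp (-u i) := by
          refine Finset.sum_le_sum fun i _ => ?_
          have h2 := htail i (u i) (hu0 i)
          have e1 : 1 + u i + Real.log (max 1 (∑ j, v j i ^ 2)) = b i := by
            simp only [hu]; ring
          rwa [e1] at h2
  have h2 : ∑ i, Real.exp (-u i) < 1 := by
    simp only [hexp]
    exact hsum
  linarith

end Pool.Agent.Results.MP_c81d26_co.ExponentialTails
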