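import Pool.Agent.Q271.LD3.Main3

set_option autoImplicit false

/-!
# Komlós for flat vectors with supports up to `exp (ε^{-2x})`

For all `1 ≤ p < 2` and `0 < x < (2 - p)/9` there is a constant `C` such that for every
`0 < ε ≤ 1` and all vectors of Euclidean norm at most one whose entries have absolute value at
most `ε`, with at most `exp (ε^{-2x})` nonzero entries in every vector and in every coordinate,
and such that the matrix of the absolute values of the entries has operator norm at most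
`ε^{-p}`, there are signs for which the `k`-th coordinate of the signed sum is at most
`C max (1, norm of the k-th row)`.
-/

namespace Pool.Agent.Results.MP_c81d26_co.FlatVectors

open Pool.Agent.H320R2.LD Pool.Agent.Q271.LD3

theorem result (p x : ℝ) (hp1 : 1 ≤ p) (hx : 0 < x) (hpx : x < (2 - p) / 9) :
    ∃ C : ℝ, 0 < C ∧ ∀ ε : ℝ, 0 < ε → ε ≤ 1 →
      ∀ (d n : ℕ) (v : Fin n → EuclideanSpace ℝ (Fin d)),
      (∀ i, ‖v i‖ ≤ 1) → (∀ i k, |v i k| ≤ ε) →
      (∀ k, ((Finset.univ.filter (fun i => v i k ≠ 0)).card : ℝ) ≤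
        Real.exp (ε ^ (-(2 * x)))) →
      (∀ i, ((Finset.univ.filter (fun k => v i k ≠ 0)).card : ℝ) ≤
        Real.exp (ε ^ (-(2 * x)))) →
      (∀ y : Fin n → ℝ, ∑ k, (∑ i, |v i k| * |y i|) ^ 2 ≤ ε ^ (-(2 * p)) * ∑ i, y i ^ 2) →
      ∃ s : Fin n → ℝ, (∀ i, s i = 1 ∨ s i = -1) ∧
        ∀ k, |∑ i, s i * v i k| ≤ C * max 1 (Real.sqrt (∑ i, (v i k) ^ 2)) := by
  obtain ⟨C, hC, h⟩ := main3 p x hp1 hx hpx
  refine ⟨C, hC, fun ε hε hε1 d n v h1 h3 h4 h5 hop => ?_⟩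
  have ht : (1 : ℝ) ≤ (ε ^ 2)⁻¹ := by
    rw [one_le_inv₀ (by positivity)]
    nlinarith
  have hpow : ∀ u : ℝ, ((ε ^ 2)⁻¹) ^ u = ε ^ (-(2 * u)) := by
    intro u
    rw [← Real.rpow_natCast, ← Real.rpow_neg hε.le, ← Real.rpow_mul hε.le]
    congr 1
    push_cast
    ring
  set w : Fin d → ℝ := fun k => max 1 (Real.sqrt (∑ i, (v i k) ^ 2)) with hw
  have hw1 : ∀ k, 1 ≤ w k := fun k => le_max_left _ _
  have hw0 : ∀ k, 0 < w k := fun k => lt_of_lt_of_le one_pos (hw1 k)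
  have hsq : ∀ k i, (v i k / w k) ^ 2 ≤ (v i k) ^ 2 := by
    intro k i
    rw [div_pow]
    exact div_le_self (sq_nonneg _) (one_le_pow₀ (hw1 k))
  have hne : ∀ k i, v i k / w k ≠ 0 ↔ v i k ≠ 0 := by
    intro k i
    rw [div_ne_zero_iff]
    exact ⟨fun h => h.1, fun h => ⟨h, (hw0 k).ne'⟩⟩
  obtain ⟨y, hx1, hx2⟩ := h ((ε ^ 2)⁻¹) ht (Fin n) (Fin d) (fun k i => v i k / w k) (by
    refine ⟨fun R i => ?_, fun R => ?_, fun i => ?_, fun R => ?_, fun i => ?_, fun y => ?_⟩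
    · have h6 : (v i R) ^ 2 ≤ ε ^ 2 := by
        rw [← sq_abs]
        exact pow_le_pow_left₀ (abs_nonneg _) (h3 i R) 2
      calc (v i R / w R) ^ 2 * (ε ^ 2)⁻¹ ≤ ε ^ 2 * (ε ^ 2)⁻¹ :=
            mul_le_mul_of_nonneg_right ((hsq R i).trans h6) (by positivity)
        _ = 1 := mul_inv_cancel₀ (by positivity)
    · have e1 : ∑ i, (v i R / w R) ^ 2 = (∑ i, (v i R) ^ 2) / (w R) ^ 2 := by
        rw [Finset.sum_div]
        exact Finset.sum_congr rfl fun i _ => div_pow _ _ _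
      rw [e1, div_le_one (by have := hw0 R; positivity)]
      have e2 : Real.sqrt (∑ i, (v i R) ^ 2) ≤ w R := le_max_right _ _
      have e3 : 0 ≤ ∑ i, (v i R) ^ 2 := Finset.sum_nonneg fun i _ => sq_nonneg _
      calc ∑ i, (v i R) ^ 2 = (Real.sqrt (∑ i, (v i R) ^ 2)) ^ 2 := (Real.sq_sqrt e3).symm
        _ ≤ (w R) ^ 2 := pow_le_pow_left₀ (Real.sqrt_nonneg _) e2 2
    · have h6 := h1 i
      have h7 : ‖v i‖ ^ 2 = ∑ k, (v i k) ^ 2 := by
        rw [EuclideanSpace.norm_sq_eq]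
        exact Finset.sum_congr rfl fun k _ => by rw [Real.norm_eq_abs, sq_abs]
      calc ∑ R, (v i R / w R) ^ 2 ≤ ∑ R, (v i R) ^ 2 :=
            Finset.sum_le_sum fun R _ => hsq R i
        _ = ‖v i‖ ^ 2 := h7.symm
        _ ≤ 1 := pow_le_one₀ (norm_nonneg _) h6
    · rw [hpow]
      simp_rw [hne]
      convert h4 R using 3
    · rw [hpow]
      simp_rw [hne]
      convert h5 i using 3
    · rw [hpow]
      unfold nsq
      refine le_trans (Finset.sum_le_sum fun k _ => ?_) (hop y)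
      refine pow_le_pow_left₀ (Finset.sum_nonneg fun i _ =>
        mul_nonneg (abs_nonneg _) (abs_nonneg _)) (Finset.sum_le_sum fun i _ => ?_) 2
      refine mul_le_mul_of_nonneg_right ?_ (abs_nonneg _)
      rw [abs_div, abs_of_pos (hw0 k)]
      exact div_le_self (abs_nonneg _) (hw1 k))
  refine ⟨y, hx1, fun k => ?_⟩
  have h8 := hx2 k
  have h9 : ∑ i, y i * v i k = w k * ∑ i, v i k / w k * y i := by
    rw [Finset.mul_sum]
    refine Finset.sum_congr rfl fun i _ => ?_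
    have := (hw0 k).ne'
    field_simp
  rw [h9, abs_mul, abs_of_pos (hw0 k), mul_comm]
  exact mul_le_mul_of_nonneg_right h8 (hw0 k).le

end Pool.Agent.Results.MP_c81d26_co.FlatVectors
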