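import Pool.Agent.Q156.G.Main

set_option autoImplicit false

/-!
# The Komlós problem for vectors between the `ℓ_1` ball and the `ℓ_2` ball

For vectors in the `ℓ_1` ball signings of value at most `2` exist (Bárány and Grinberg), for vectors
in the `ℓ_2` ball this is the Komlós problem. With `L = 1 + log (1 + min d n)`:

* if every vector is the sum of a vector of the `ℓ_1` ball and `δ` times a vector of the `ℓ_2`
  ball, there is a signing of value at most `C (1 + δ L^{1/4} (1 + log L)^{3/4})`; so the value is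
  bounded by an absolute constant if `δ ≤ L^{-1/4} (1 + log L)^{-3/4}`;
* for vectors of the `ℓ_p` ball, `1 ≤ p ≤ 2`, there is a signing of value at most
  `C (L^{1/2} (1 + log L)^{3/2})^{1 - 1/p}`, hence at most `C exp (2 A)` if
  `(p - 1) log L ≤ A`;
* if `∑_i min (|v_i|², |v_i|) ≤ t` for all vectors `v`, `t ≥ 1`, there is a signing of value at
  most `C (t + L^{1/2} (1 + log t)^{3/2})`.

All this holds for the rounding of an arbitrary point of the cube `[-1, 1]^n`.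
-/

open Finset Real

namespace Pool.Agent.Results.MP_c81d26_co.SmallNormColumns

/-- For every starting point `x₀ ∈ [-1,1]^n` (for instance `0`) there are signs `x` such that all
coordinates of `∑_j (x_j - x₀_j) v_j` are of absolute value at most `B`. -/
def Rounds {d n : ℕ} (v : Fin n → Fin d → ℝ) (B : ℝ) : Prop :=
  ∀ x₀ : Fin n → ℝ, (∀ j, |x₀ j| ≤ 1) → ∃ x : Fin n → ℝ, (∀ j, x j = 1 ∨ x j = -1) ∧
    ∀ i, |∑ j, (x j - x₀ j) * v j i| ≤ B

/-- `L = 1 + log (1 + min d n)` -/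
noncomputable def L (d n : ℕ) : ℝ := 1 + log (1 + (min d n : ℕ))

theorem result : ∃ C : ℝ, 0 < C ∧
    -- (1) a vector of the `ℓ_1` ball plus `δ` times a vector of the `ℓ_2` ball
    (∀ (d n : ℕ) (u w : Fin n → Fin d → ℝ) (δ : ℝ), 0 ≤ δ → δ ≤ 1 →
      (∀ j, ∑ i, |u j i| ≤ 1) → (∀ j, ∑ i, w j i ^ 2 ≤ δ ^ 2) →
      Rounds (fun j i => u j i + w j i)
        (C * (1 + δ * (L d n ^ (1 / 4 : ℝ) * (1 + log (L d n)) ^ (3 / 4 : ℝ))))) ∧
    -- (2) the `ℓ_p` ball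
    (∀ (d n : ℕ) (v : Fin n → Fin d → ℝ) (p : ℝ), 1 ≤ p → p ≤ 2 →
      (∀ j, ∑ i, |v j i| ^ p ≤ 1) →
      Rounds v (C * (L d n ^ (1 / 2 : ℝ) * (1 + log (L d n)) ^ (3 / 2 : ℝ)) ^ (1 - 1 / p)) ∧
      -- exponents near one
      ∀ A : ℝ, (p - 1) * log (L d n) ≤ A → Rounds v (C * exp (2 * A))) ∧
    -- (3) mixed energy
    (∀ (d n : ℕ) (v : Fin n → Fin d → ℝ) (t : ℝ), 1 ≤ t →
      (∀ j, ∑ i, min (v j i ^ 2) |v j i| ≤ t) →
      Rounds v (C * (t + L d n ^ (1 / 2 : ℝ) * (1 + log t) ^ (3 / 2 : ℝ)))) := by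
  have hLL : ∀ d n : ℕ, L d n = Q156G.LL (min d n) := fun d n => rfl
  have hL1 : ∀ d n : ℕ, 1 ≤ L d n := fun d n => Q156G.one_le_LL _
  have hR : ∀ d n : ℕ, Q156G.R (Q156G.LL (min d n)) =
      L d n ^ (1 / 2 : ℝ) * (1 + log (L d n)) ^ (3 / 2 : ℝ) := by
    intro d n
    unfold Q156G.R
    rw [← hLL, Real.sqrt_eq_rpow]
  have hsum : ∀ {d n : ℕ} (v : Fin n → Fin d → ℝ) (x x₀ : Fin n → ℝ) (i : Fin d),
      ∑ j, (x j - x₀ j) * v j i = ∑ j, v j i * (x j - x₀ j) :=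
    fun v x x₀ i => Finset.sum_congr rfl fun j _ => mul_comm _ _
  refine ⟨46000000, by norm_num, ?_, ?_, ?_⟩
  · intro d n u w δ hδ0 hδ1 hu hw x₀ hx₀
    obtain ⟨x, hx1, hx2⟩ := Q156G.kfun (fun i j => u j i) (fun i j => w j i) δ hδ0 hδ1 hu hw x₀ hx₀
    refine ⟨x, hx1, fun i => ?_⟩
    rw [hsum (fun j i => u j i + w j i)]
    refine (hx2 i).trans ?_
    have h1 : Real.sqrt (Q156G.R (Q156G.LL (min d n))) =
        L d n ^ (1 / 4 : ℝ) * (1 + log (L d n)) ^ (3 / 4 : ℝ) := by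
      have h2 := hL1 d n
      have h3 : 0 ≤ log (L d n) := Real.log_nonneg h2
      rw [hR, Real.sqrt_eq_rpow, Real.mul_rpow (by positivity) (by positivity),
        ← Real.rpow_mul (by linarith), ← Real.rpow_mul (by linarith)]
      norm_num
    rw [h1]
    have h2 := hL1 d n
    have h3 : 0 ≤ log (L d n) := Real.log_nonneg h2
    have h4 : 0 ≤ δ * (L d n ^ (1 / 4 : ℝ) * (1 + log (L d n)) ^ (3 / 4 : ℝ)) := by positivity
    linarith
  · intro d n v p hp1 hp2 hv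
    have key : Rounds v (46000000 *
        (L d n ^ (1 / 2 : ℝ) * (1 + log (L d n)) ^ (3 / 2 : ℝ)) ^ (1 - 1 / p)) := by
      intro x₀ hx₀
      obtain ⟨x, hx1, hx2⟩ := Q156G.lp (fun i j => v j i) p hp1 hp2 hv x₀ hx₀
      refine ⟨x, hx1, fun i => ?_⟩
      rw [hsum v, ← hR]
      exact hx2 i
    refine ⟨key, fun A hA x₀ hx₀ => ?_⟩
    obtain ⟨x, hx1, hx2⟩ := key x₀ hx₀
    refine ⟨x, hx1, fun i => (hx2 i).trans ?_⟩
    apply mul_le_mul_of_nonneg_left _ (by norm_num)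
    rw [← hR]
    exact Q156G.near_one hp1 hA
  · intro d n v t ht hv x₀ hx₀
    obtain ⟨x, hx1, hx2⟩ := Q156G.round (fun i j => v j i) t ht hv x₀ hx₀
    refine ⟨x, hx1, fun i => ?_⟩
    rw [hsum v]
    refine (hx2 i).trans ?_
    unfold Q156G.fin
    have h1 := Real.sqrt_le_sqrt (Q156G.loglam (min d n))
    rw [← hLL, Real.sqrt_eq_rpow (L d n)] at h1
    have h2 : 0 ≤ log t := Real.log_nonneg ht
    have h3 : 0 ≤ (1 + log t) ^ (3 / 2 : ℝ) := by positivity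
    have h4 := mul_le_mul_of_nonneg_right h1 h3
    have h5 : 0 ≤ L d n ^ (1 / 2 : ℝ) * (1 + log t) ^ (3 / 2 : ℝ) := by
      have := hL1 d n
      positivity
    linarith

end Pool.Agent.Results.MP_c81d26_co.SmallNormColumns
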