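import Mathlib
import Pool.Agent.Q156.Kom.Small

/-!
# The Komlós problem: dimension-free partial signings, and small traces suffice

Let `v_1, …, v_n` be vectors in the Euclidean unit ball of `ℝ^d` with entries of absolute value at
most `δ` (`δ = 1` is allowed), `x⁰ ∈ [-1,1]^n`, `0 < ε ≤ 1/2`, `L = log (1/ε)`, and
`D_i = C min (L^{1/4}) (1 + δ (1 + log (1/δ))^{3/2} L^{1/2}) min (1, L^{1/4} E_i^{1/8})`, where
`E_i = ∑_j v_j(i)²` and `C` is an absolute constant. No bound for the number of overlapping vectors,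
for `n` or for `d` enters.

(1) There is a probability distribution on points `y ∈ [-1,1]^n` such that surely the `i`-th
coordinate of `∑ (y_j - x⁰_j) v_j` is at most `D_i` for all `i`, and every `y_j` is a sign with
probability at least `1 - ε`.

(2) Let `p` be a weight on the indices; call a set `X` of indices small if `p (X) ≤ ε p ([n])`. If
the vectors of every small set have a signing with coordinates at most `B_i`, then there are signs
`x_j` with all coordinates of `∑ (x_j - x⁰_j) v_j` at most `D_i + 2 B_i`.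

(3) The hypothesis of (2) holds if every nonempty small set `X` has fewer than `|X|` coordinates `i`
with `∑_{j ∈ X} |v_j(i)| > B_i`.
-/

set_option autoImplicit false

namespace Pool.Agent.Results.MP_c81d26_co.SmallTraces

open Finset

/-- `min (L^{1/4}) (1 + δ (1 + log (1/δ))^{3/2} L^{1/2}) min (1, L^{1/4} E^{1/8})` -/
noncomputable def D (δ L E : ℝ) : ℝ :=
  min (L ^ (1 / 4 : ℝ)) (1 + δ * (1 + Real.log (1 / δ)) ^ (3 / 2 : ℝ) * Real.sqrt L) *
    min 1 (L ^ (1 / 4 : ℝ) * E ^ (1 / 8 : ℝ))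

theorem qt_eq {x : ℝ} (hx : 0 ≤ x) : Q156.Kom.qt x = x ^ (1 / 4 : ℝ) := by
  unfold Q156.Kom.qt
  rw [Real.sqrt_eq_rpow, Real.sqrt_eq_rpow, ← Real.rpow_mul hx]
  norm_num

theorem F_eq {δ L E : ℝ} (hL : 0 ≤ L) (hE : 0 ≤ E) :
    Q156.Kom.F (Q156.Kom.kap δ) L E = 35250000 * D δ L E := by
  unfold Q156.Kom.F Q156.Kom.K Q156.Kom.kap D
  rw [qt_eq hL, qt_eq hE]
  have e1 : Real.sqrt (E ^ (1 / 4 : ℝ)) = E ^ (1 / 8 : ℝ) := by
    rw [Real.sqrt_eq_rpow, ← Real.rpow_mul hE]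
    norm_num
  rw [e1]
  ring

theorem coord {d n : ℕ} (v : Fin n → EuclideanSpace ℝ (Fin d)) (X : Finset (Fin n))
    (ε : Fin n → ℝ) (i : Fin d) :
    (∑ j ∈ X, ε j • v j) i = ∑ j ∈ X, v j i * ε j := by
  rw [WithLp.ofLp_sum, Finset.sum_apply]
  exact Finset.sum_congr rfl fun j _ => by simp [mul_comm]

theorem result : ∃ C : ℝ, 0 < C ∧ ∀ (d n : ℕ) (v : Fin n → EuclideanSpace ℝ (Fin d)) (δ : ℝ),
    (∀ j, ‖v j‖ ≤ 1) → 0 < δ → δ ≤ 1 → (∀ j i, |v j i| ≤ δ) →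
    ∀ (x₀ : Fin n → ℝ) (ε : ℝ), (∀ j, |x₀ j| ≤ 1) → 0 < ε → ε ≤ 1 / 2 →
    (∃ (M : ℕ) (w : Fin M → ℝ) (y : Fin M → Fin n → ℝ),
      (∀ r, 0 ≤ w r) ∧ ∑ r, w r = 1 ∧ (∀ r j, |y r j| ≤ 1) ∧
      (∀ r i, |(∑ j, (y r j - x₀ j) • v j) i| ≤ C * D δ (Real.log (1 / ε)) (∑ j, v j i ^ 2)) ∧
      ∀ j, ∑ r ∈ univ.filter (fun r => |y r j| < 1), w r ≤ ε) ∧
    ∀ (p : Fin n → ℝ) (B : Fin d → ℝ), (∀ j, 0 ≤ p j) →
      ((∀ X : Finset (Fin n), ∑ j ∈ X, p j ≤ ε * ∑ j, p j →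
          ∃ e : Fin n → ℝ, (∀ j, e j = 1 ∨ e j = -1) ∧ ∀ i, |(∑ j ∈ X, e j • v j) i| ≤ B i) ∨
        ((∀ i, 0 ≤ B i) ∧ ∀ X : Finset (Fin n), X.Nonempty → ∑ j ∈ X, p j ≤ ε * ∑ j, p j →
          (univ.filter (fun i => B i < ∑ j ∈ X, |v j i|)).card < X.card)) →
      ∃ x : Fin n → ℝ, (∀ j, x j = 1 ∨ x j = -1) ∧
        ∀ i, |(∑ j, (x j - x₀ j) • v j) i| ≤
          C * D δ (Real.log (1 / ε)) (∑ j, v j i ^ 2) + 2 * B i := by
  classical
  refine ⟨493500000, by norm_num, fun d n v δ hv hδ0 hδ1 hvδ x₀ ε hx₀ hε0 hε => ?_⟩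
  have hcol : ∀ j, ∑ i, v j i ^ 2 ≤ 1 := by
    intro j
    have h1 := hv j
    have h2 : ‖v j‖ ^ 2 ≤ 1 := by
      have := norm_nonneg (v j)
      nlinarith
    rw [EuclideanSpace.norm_sq_eq] at h2
    simpa [Real.norm_eq_abs, sq_abs] using h2
  have hκ := Q156.Kom.kap_pos hδ0 hδ1
  have hpart := Q156.Kom.part_of_entries (fun i j => v j i) δ hδ0 hδ1 (fun i j => hvδ j i) hcol
  set L : ℝ := Real.log (1 / ε) with hL
  have hL2 : Real.log 2 ≤ L := Real.log_le_log (by norm_num) (by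
    rw [le_div_iff₀ hε0]; linarith)
  have hL3 : (1 : ℝ) ≤ 2 * L := by
    have := Real.log_two_gt_d9
    linarith
  have hexp : Real.exp (-(2 * L)) ≤ ε := by
    have h1 : Real.exp (-L) = ε := by
      rw [hL, Real.exp_neg, Real.exp_log (by positivity), one_div, inv_inv]
    have h2 : Real.exp (-(2 * L)) = ε * ε := by
      rw [show -(2 * L) = -L + -L by ring, Real.exp_add, h1]
    rw [h2]
    nlinarith
  have hF : ∀ i, 7 * Q156.Kom.F (Q156.Kom.kap δ) (2 * L)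
      (Q156.Kom.en (fun i j => v j i) univ i) ≤ 493500000 * D δ L (∑ j, v j i ^ 2) := by
    intro i
    have h1 := Q156.Kom.F_mul (κ := Q156.Kom.kap δ) (L := L) (c := 2)
      (E := Q156.Kom.en (fun i j => v j i) univ i) hκ.le (by norm_num)
    have h2 : Q156.Kom.en (fun i j => v j i) univ i = ∑ j, v j i ^ 2 := rfl
    rw [h2] at h1 ⊢
    rw [F_eq (L := L) (by linarith) (sum_nonneg fun _ _ => sq_nonneg _)] at h1
    linarith
  refine ⟨?_, fun p B hp hyp => ?_⟩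
  · obtain ⟨M, w, y, h1, h2, h3, h4⟩ := Q156.Kom.dist_of
      (fun y : Fin n → ℝ => (∀ j, |y j| ≤ 1) ∧
        ∀ i, |(∑ j, (y j - x₀ j) • v j) i| ≤ 493500000 * D δ L (∑ j, v j i ^ 2)) ε (by
        intro p hp
        obtain ⟨x, h1, -, h3, h4⟩ := Q156.Kom.start_clean hκ hpart (2 * L) hL3 p hp x₀ hx₀
        refine ⟨x, ⟨h1, fun i => ?_⟩, ?_⟩
        · rw [coord]
          exact (h3 i).trans (hF i)
        · have hsub : ∑ j ∈ Q156.Kom.al x₀, p j ≤ ∑ j, p j :=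
            Finset.sum_le_sum_of_subset_of_nonneg (subset_univ _) fun j _ _ => hp j
          exact h4.trans (mul_le_mul hexp hsub (sum_nonneg fun j _ => hp j) hε0.le))
    exact ⟨M, w, y, h1, h2, fun r => (h3 r).1, fun r => (h3 r).2, h4⟩
  · obtain ⟨χ, h1, h2⟩ := Q156.Kom.small_traces hκ hpart (2 * L) hL3 p hp x₀ hx₀ ε hexp B (by
      intro X hX
      rcases hyp with hyp | ⟨hB, hyp⟩
      · obtain ⟨e, h1, h2⟩ := hyp X hX
        refine ⟨e, h1, fun i => ?_⟩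
        have h3 := h2 i
        rwa [coord] at h3
      · refine Q156.Kom.hall_trace _ B hB X fun Y hY hYX => hyp Y hY (le_trans ?_ hX)
        exact Finset.sum_le_sum_of_subset_of_nonneg hYX fun j _ _ => hp j)
    refine ⟨χ, h1, fun i => ?_⟩
    rw [coord]
    have h3 := h2 i
    have h4 := hF i
    linarith

end Pool.Agent.Results.MP_c81d26_co.SmallTraces
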